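import Mathlib.Algebra.BigOperators.Finprod
import Mathlib.CategoryTheory.Monoidal.PushoutProduct
import Mathlib.Combinatorics.SimpleGraph.Hasse

/-!
Antimagic labellings and the parameter `tau`.
-/

set_option autoImplicit false

namespace Pool.Agent.MP_567833_co

open SimpleGraph

/-- `G` is antimagic: some bijective labelling of the edges by `1, ..., m` has pairwise distinct
vertex sums. -/
def IsAntimagic {V : Type} (G : SimpleGraph V) : Prop :=
  ∃ f : Sym2 V → ℕ, Set.BijOn f G.edgeSet (Set.Icc 1 G.edgeSet.ncard) ∧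
    Function.Injective fun v : V => ∑ᶠ e ∈ G.incidenceSet v, f e

/-- The disjoint union of `t` copies of the path with three vertices. -/
def copiesP3 (t : ℕ) : SimpleGraph (Fin t × Fin 3) :=
  (⊥ : SimpleGraph (Fin t)) □ pathGraph 3

/-- `a` is the largest integer such that `G ∪ t P₃` is antimagic for all `t ≤ a`. -/
def IsTau {V : Type} (G : SimpleGraph V) (a : ℕ) : Prop :=
  IsGreatest {s : ℕ | ∀ t ≤ s, IsAntimagic (G ⊕g copiesP3 t)} a

end Pool.Agent.MP_567833_co
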