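import Mathlib.Tactic.Abel
import Mathlib.Tactic.Linarith.Frontend
import Mathlib.Tactic.NormNum.Ineq
import Mathlib.Algebra.BigOperators.Fin
import Mathlib.Algebra.BigOperators.Intervals
import Mathlib.Data.Int.ConditionallyCompleteOrder
import Mathlib.Data.Int.Star
import Mathlib.Algebra.Order.Ring.Star
import Mathlib.Algebra.Order.Group.Int.Sum
import Mathlib.Combinatorics.SimpleGraph.CycleGraph
import Mathlib.Tactic.Algebra.Basic
import Pool.Agent.MP_567833_co.Defs

/-!
Reduction of antimagic labellings to multisets of labels and of vertex sums.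
-/

set_option autoImplicit false

namespace Pool.Agent.MP_567833_co

open SimpleGraph Finset

/-- `ι` enumerates the edges of `G`. -/
def Param {V E : Type} (G : SimpleGraph V) (ι : E → Sym2 V) : Prop :=
  Function.Injective ι ∧ Set.range ι = G.edgeSet

open Classical in
/-- The vertex sum for a labelling of an enumeration of edges. -/
noncomputable def vsum {V E : Type} [Fintype E] (ι : E → Sym2 V) (l : E → ℕ) (v : V) : ℕ :=
  ∑ e : E, if v ∈ ι e then l e else 0

/-- Some labelling has multiset of labels `L` and multiset of vertex sums `S`. -/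
def Lab {V E : Type} [Fintype V] [Fintype E] (ι : E → Sym2 V) (L S : Multiset ℕ) : Prop :=
  ∃ l : E → ℕ, (univ : Finset E).val.map l = L ∧ (univ : Finset V).val.map (vsum ι l) = S

lemma finsum_eq_vsum {V E : Type} [Fintype E] {G : SimpleGraph V} {ι : E → Sym2 V}
    (h : Param G ι) (f : Sym2 V → ℕ) (v : V) :
    ∑ᶠ e ∈ G.incidenceSet v, f e = vsum ι (f ∘ ι) v := by
  classical
  have h1 : G.incidenceSet v = (((univ.filter fun e => v ∈ ι e).image ι : Finset (Sym2 V)) :
      Set (Sym2 V)) := by
    ext s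
    simp only [incidenceSet, ← h.2, Set.mem_range, coe_image, coe_filter,
      mem_univ, true_and, Set.mem_image, Set.mem_ofPred_eq]
    constructor
    · rintro ⟨⟨e, rfl⟩, hv⟩
      exact ⟨e, hv, rfl⟩
    · rintro ⟨e, hv, rfl⟩
      exact ⟨⟨e, rfl⟩, hv⟩
  rw [h1, finsum_mem_coe_finset, Finset.sum_image (fun a _ b _ hab => h.1 hab), Finset.sum_filter]
  unfold vsum
  refine Finset.sum_congr rfl fun e _ => ?_
  simp only [Function.comp]

lemma ncard_eq {V E : Type} [Fintype E] {G : SimpleGraph V} {ι : E → Sym2 V}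
    (h : Param G ι) : G.edgeSet.ncard = Fintype.card E := by
  rw [← h.2, ← Set.image_univ, Set.ncard_image_of_injective _ h.1, Set.ncard_univ,
    Nat.card_eq_fintype_card]

lemma bijOn_iff {E : Type} [Fintype E] (l : E → ℕ) (n : ℕ) :
    Set.BijOn l Set.univ (Set.Icc 1 n) ↔ (univ : Finset E).val.map l = (Finset.Icc 1 n).val := by
  classical
  constructor
  · intro h
    have hinj : Function.Injective l := Set.injOn_univ.1 h.injOn
    have h1 : (univ : Finset E).map ⟨l, hinj⟩ = Finset.Icc 1 n := by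
      ext x
      simp only [mem_map, mem_univ, Function.Embedding.coeFn_mk, true_and, Finset.mem_Icc]
      constructor
      · rintro ⟨e, rfl⟩
        exact h.mapsTo (Set.mem_univ e)
      · intro hx
        obtain ⟨e, -, he⟩ := h.surjOn (show x ∈ Set.Icc 1 n from hx)
        exact ⟨e, he⟩
    rw [← h1]
    rfl
  · intro h
    have hnd : ((univ : Finset E).val.map l).Nodup := by rw [h]; exact (Finset.Icc 1 n).nodup
    have hinj := (Multiset.nodup_map_iff_inj_on (univ : Finset E).nodup).1 hnd
    refine ⟨fun e _ => ?_, fun a _ b _ hab => hinj a (mem_univ a) b (mem_univ b) hab,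
      fun x hx => ?_⟩
    · have : l e ∈ (Finset.Icc 1 n).val := by
        rw [← h]; exact Multiset.mem_map_of_mem _ (mem_univ e)
      simpa using this
    · have : x ∈ (univ : Finset E).val.map l := by
        rw [h]; simpa using hx
      obtain ⟨e, -, he⟩ := Multiset.mem_map.1 this
      exact ⟨e, Set.mem_univ e, he⟩

lemma injective_iff_nodup {V : Type} [Fintype V] (g : V → ℕ) :
    Function.Injective g ↔ ((univ : Finset V).val.map g).Nodup := by
  rw [Multiset.nodup_map_iff_inj_on (univ : Finset V).nodup]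
  exact ⟨fun h a _ b _ hab => h hab, fun h a b hab => h a (mem_univ a) b (mem_univ b) hab⟩

theorem antimagic_iff {V E : Type} [Fintype V] [Fintype E] {G : SimpleGraph V} {ι : E → Sym2 V}
    (h : Param G ι) :
    IsAntimagic G ↔ ∃ S, Lab ι (Finset.Icc 1 (Fintype.card E)).val S ∧ S.Nodup := by
  have hb : Set.BijOn ι Set.univ G.edgeSet := by
    rw [← h.2, ← Set.image_univ]
    exact h.1.injOn.bijOn_image
  constructor
  · rintro ⟨f, hf, hi⟩
    rw [ncard_eq h] at hf
    refine ⟨_, ⟨f ∘ ι, (bijOn_iff _ _).1 (hf.comp hb), rfl⟩, ?_⟩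
    rw [← injective_iff_nodup]
    simpa only [finsum_eq_vsum h] using hi
  · rintro ⟨S, ⟨l, hl, rfl⟩, hS⟩
    have hc : Function.extend ι l 0 ∘ ι = l := funext fun e => h.1.extend_apply _ _ e
    refine ⟨Function.extend ι l 0, ?_, ?_⟩
    · rw [ncard_eq h]
      have h2 := (bijOn_iff _ _).2 hl
      rw [← hc] at h2
      refine ⟨?_, ?_, ?_⟩
      · intro s hs
        obtain ⟨e, -, rfl⟩ := hb.surjOn hs
        exact h2.mapsTo (Set.mem_univ e)
      · intro s hs s' hs' hss
        obtain ⟨e, -, rfl⟩ := hb.surjOn hs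
        obtain ⟨e', -, rfl⟩ := hb.surjOn hs'
        rw [h2.injOn (Set.mem_univ e) (Set.mem_univ e') hss]
      · intro x hx
        obtain ⟨e, -, he⟩ := h2.surjOn hx
        exact ⟨ι e, hb.mapsTo (Set.mem_univ e), he⟩
    · simp only [finsum_eq_vsum h, hc]
      exact (injective_iff_nodup _).2 hS

/-- The enumeration of the edges of a disjoint union. -/
def sumI {V W E F : Type} (ι : E → Sym2 V) (κ : F → Sym2 W) : E ⊕ F → Sym2 (V ⊕ W) :=
  Sum.elim (fun e => (ι e).map Sum.inl) (fun e => (κ e).map Sum.inr)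

lemma Param.sum {V W E F : Type} {G : SimpleGraph V} {H : SimpleGraph W} {ι : E → Sym2 V}
    {κ : F → Sym2 W} (h : Param G ι) (h' : Param H κ) : Param (G ⊕g H) (sumI ι κ) := by
  have key : ∀ (s : Sym2 V) (s' : Sym2 W), s.map (Sum.inl : V → V ⊕ W) ≠ s'.map Sum.inr := by
    intro s s'
    induction s using Sym2.ind
    induction s' using Sym2.ind
    simp
  constructor
  · rintro (e | e) (e' | e') hee
    · rw [h.1 (Sym2.map.injective Sum.inl_injective hee)]
    · exact absurd hee (key _ _)
    · exact absurd hee.symm (key _ _)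
    · rw [h'.1 (Sym2.map.injective Sum.inr_injective hee)]
  · ext s
    constructor
    · rintro ⟨e | e, rfl⟩
      · have : ι e ∈ G.edgeSet := h.2 ▸ Set.mem_range_self e
        simp only [sumI, Sum.elim_inl]
        generalize ι e = s at this
        induction s using Sym2.ind
        simpa using this
      · have : κ e ∈ H.edgeSet := h'.2 ▸ Set.mem_range_self e
        simp only [sumI, Sum.elim_inr]
        generalize κ e = s at this
        induction s using Sym2.ind
        simpa using this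
    · induction s using Sym2.ind with
      | h u v =>
        intro hs
        rcases u with u | u <;> rcases v with v | v
        · have : s(u, v) ∈ Set.range ι := by rw [h.2]; simpa using hs
          obtain ⟨e, he⟩ := this
          exact ⟨Sum.inl e, by simp [sumI, he]⟩
        · simp at hs
        · simp at hs
        · have : s(u, v) ∈ Set.range κ := by rw [h'.2]; simpa using hs
          obtain ⟨e, he⟩ := this
          exact ⟨Sum.inr e, by simp [sumI, he]⟩

lemma vsum_inl {V W E F : Type} [Fintype E] [Fintype F] (ι : E → Sym2 V) (κ : F → Sym2 W)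
    (l : E ⊕ F → ℕ) (v : V) : vsum (sumI ι κ) l (Sum.inl v) = vsum ι (l ∘ Sum.inl) v := by
  unfold vsum
  rw [Fintype.sum_sum_type]
  have h1 : ∀ s : Sym2 V, (Sum.inl v : V ⊕ W) ∈ s.map Sum.inl ↔ v ∈ s := by
    intro s; simp [Sym2.mem_map]
  have h2 : ∀ s : Sym2 W, ¬ (Sum.inl v : V ⊕ W) ∈ s.map Sum.inr := by
    intro s; simp [Sym2.mem_map]
  simp only [sumI, Sum.elim_inl, Sum.elim_inr, h2, if_false, sum_const_zero, add_zero,
    Function.comp]
  refine Finset.sum_congr rfl fun x _ => ?_
  by_cases h : v ∈ ι x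
  · rw [if_pos h, if_pos ((h1 _).2 h)]
  · rw [if_neg h, if_neg (fun h' => h ((h1 _).1 h'))]

lemma vsum_inr {V W E F : Type} [Fintype E] [Fintype F] (ι : E → Sym2 V) (κ : F → Sym2 W)
    (l : E ⊕ F → ℕ) (v : W) : vsum (sumI ι κ) l (Sum.inr v) = vsum κ (l ∘ Sum.inr) v := by
  unfold vsum
  rw [Fintype.sum_sum_type]
  have h1 : ∀ s : Sym2 W, (Sum.inr v : V ⊕ W) ∈ s.map Sum.inr ↔ v ∈ s := by
    intro s; simp [Sym2.mem_map]
  have h2 : ∀ s : Sym2 V, ¬ (Sum.inr v : V ⊕ W) ∈ s.map Sum.inl := by
    intro s; simp [Sym2.mem_map]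
  simp only [sumI, Sum.elim_inl, Sum.elim_inr, h2, if_false, sum_const_zero, zero_add,
    Function.comp]
  refine Finset.sum_congr rfl fun x _ => ?_
  by_cases h : v ∈ κ x
  · rw [if_pos h, if_pos ((h1 _).2 h)]
  · rw [if_neg h, if_neg (fun h' => h ((h1 _).1 h'))]

lemma univ_map_sum {A B : Type} [Fintype A] [Fintype B] (g : A ⊕ B → ℕ) :
    (univ : Finset (A ⊕ B)).val.map g =
      (univ : Finset A).val.map (g ∘ Sum.inl) + (univ : Finset B).val.map (g ∘ Sum.inr) := by
  rw [← Finset.univ_disjSum_univ, Finset.val_disjSum, Multiset.map_disjSum]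
  rfl

lemma lab_sum {V W E F : Type} [Fintype V] [Fintype W] [Fintype E] [Fintype F]
    (ι : E → Sym2 V) (κ : F → Sym2 W) (L S : Multiset ℕ) :
    Lab (sumI ι κ) L S ↔
      ∃ L₁ L₂ S₁ S₂, Lab ι L₁ S₁ ∧ Lab κ L₂ S₂ ∧ L = L₁ + L₂ ∧ S = S₁ + S₂ := by
  constructor
  · rintro ⟨l, rfl, rfl⟩
    refine ⟨_, _, _, _, ⟨l ∘ Sum.inl, rfl, rfl⟩, ⟨l ∘ Sum.inr, rfl, rfl⟩, univ_map_sum _, ?_⟩
    rw [univ_map_sum]
    congr 2
    · funext v; exact vsum_inl _ _ _ _
    · funext v; exact vsum_inr _ _ _ _
  · rintro ⟨_, _, _, _, ⟨l₁, rfl, rfl⟩, ⟨l₂, rfl, rfl⟩, rfl, rfl⟩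
    refine ⟨Sum.elim l₁ l₂, univ_map_sum _, ?_⟩
    rw [univ_map_sum]
    congr 2
    · funext v; exact vsum_inl _ _ _ _
    · funext v; exact vsum_inr _ _ _ _

lemma exists_univ_map {A : Type} (n : ℕ) (P : Multiset A) (h : P.card = n) :
    ∃ p : Fin n → A, (univ : Finset (Fin n)).val.map p = P := by
  induction P using Quotient.inductionOn with
  | h l =>
    simp only [Multiset.quot_mk_to_coe, Multiset.coe_card] at h
    subst h
    exact ⟨l.get, by rw [Fin.univ_val_map, List.ofFn_get]; rfl⟩

/-- Edges of the star. -/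
def starI (n : ℕ) : Fin n → Sym2 (Fin 1 ⊕ Fin n) := fun i => s(Sum.inl 0, Sum.inr i)

lemma param_star (n : ℕ) : Param (completeBipartiteGraph (Fin 1) (Fin n)) (starI n) := by
  constructor
  · intro i j hij
    simpa [starI] using hij
  · ext s
    induction s using Sym2.ind with
    | h u v =>
      rcases u with u | u <;> rcases v with v | v
      · simp [starI]
      · simp [starI, Subsingleton.elim u 0]
      · simp [starI, Subsingleton.elim v 0]
      · simp [starI]

lemma vsum_star_inl (n : ℕ) (l : Fin n → ℕ) (v : Fin 1) :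
    vsum (starI n) l (Sum.inl v) = ∑ i, l i := by
  simp [vsum, starI, Subsingleton.elim v 0]

lemma vsum_star_inr (n : ℕ) (l : Fin n → ℕ) (v : Fin n) :
    vsum (starI n) l (Sum.inr v) = l v := by
  simp [vsum, starI]

lemma lab_star (n : ℕ) (L S : Multiset ℕ) :
    Lab (starI n) L S ↔ L.card = n ∧ S = L.sum ::ₘ L := by
  have key : ∀ l : Fin n → ℕ, (univ : Finset (Fin 1 ⊕ Fin n)).val.map (vsum (starI n) l) =
      ((univ : Finset (Fin n)).val.map l).sum ::ₘ (univ : Finset (Fin n)).val.map l := by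
    intro l
    rw [univ_map_sum]
    have h1 : vsum (starI n) l ∘ Sum.inr = l := funext fun v => vsum_star_inr n l v
    have h2 : vsum (starI n) l ∘ Sum.inl = fun _ => ∑ i, l i :=
      funext fun v => vsum_star_inl n l v
    rw [h1, h2]
    simp only [univ_unique, singleton_val, Multiset.map_singleton, Multiset.singleton_add]
    rfl
  constructor
  · rintro ⟨l, rfl, rfl⟩
    exact ⟨by simp, key l⟩
  · rintro ⟨h, rfl⟩
    obtain ⟨l, rfl⟩ := exists_univ_map n L h
    exact ⟨l, rfl, key l⟩

/-- Edges of the 4-cycle. -/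
def cycI : Fin 4 → Sym2 (Fin 4) := fun i => s(i, i + 1)

lemma param_cyc : Param (cycleGraph 4) cycI := by
  constructor
  · unfold cycI
    decide
  · ext s
    induction s using Sym2.ind with
    | h u v =>
      simp only [Set.mem_range, mem_edgeSet, cycI]
      revert u v
      decide

lemma lab_cyc (L S : Multiset ℕ) :
    Lab cycI L S ↔ ∃ a b c d, L = {a, b, c, d} ∧ S = {a + d, a + b, b + c, c + d} := by
  have key : ∀ l : Fin 4 → ℕ, (univ : Finset (Fin 4)).val.map (vsum cycI l) =
      {l 0 + l 3, l 0 + l 1, l 1 + l 2, l 2 + l 3} := by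
    intro l
    rw [Fin.univ_val_map]
    simp [List.ofFn_succ, vsum, cycI, Fin.sum_univ_four]
    rfl
  have key2 : ∀ l : Fin 4 → ℕ, (univ : Finset (Fin 4)).val.map l = {l 0, l 1, l 2, l 3} := by
    intro l
    rw [Fin.univ_val_map]
    simp [List.ofFn_succ]
    rfl
  constructor
  · rintro ⟨l, rfl, rfl⟩
    exact ⟨_, _, _, _, key2 l, key l⟩
  · rintro ⟨a, b, c, d, rfl, rfl⟩
    exact ⟨![a, b, c, d], key2 _, key _⟩

/-- Edges of `t` copies of the path. -/
def pathI (t : ℕ) : Fin t ⊕ Fin t → Sym2 (Fin t × Fin 3) :=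
  Sum.elim (fun i => s((i, 0), (i, 1))) (fun i => s((i, 1), (i, 2)))

lemma param_path (t : ℕ) : Param (copiesP3 t) (pathI t) := by
  constructor
  · rintro (i | i) (j | j) hij <;> simp [pathI] at hij ⊢ <;> exact hij
  · ext s
    induction s using Sym2.ind with
    | h u v =>
      obtain ⟨i, a⟩ := u
      obtain ⟨j, b⟩ := v
      simp only [Set.mem_range, mem_edgeSet, copiesP3, boxProd_adj, bot_adj, false_and, false_or,
        pathGraph_adj, Sum.exists, pathI, Sum.elim_inl, Sum.elim_inr]
      fin_cases a <;> fin_cases b <;> simp [eq_comm]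

lemma univ_map_prod3 {A : Type} [Fintype A] (g : A × Fin 3 → ℕ) :
    (univ : Finset (A × Fin 3)).val.map g =
      (univ : Finset A).val.map (fun i => g (i, 0)) + (univ : Finset A).val.map (fun i => g (i, 2))
        + (univ : Finset A).val.map (fun i => g (i, 1)) := by
  have h1 : ∀ {B : Type} [Fintype B] (f : B → ℕ),
      (univ : Finset B).val.map f = ∑ b, ({f b} : Multiset ℕ) := by
    intro B _ f
    have := Multiset.sum_map_singleton ((univ : Finset B).val.map f)
    rw [Multiset.map_map] at this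
    exact this.symm
  rw [h1, h1, h1, h1, Fintype.sum_prod_type, ← Finset.sum_add_distrib, ← Finset.sum_add_distrib]
  refine Finset.sum_congr rfl fun i _ => ?_
  rw [Fin.sum_univ_three]
  abel

lemma lab_path (t : ℕ) (L S : Multiset ℕ) :
    Lab (pathI t) L S ↔ ∃ P : Multiset (ℕ × ℕ), P.card = t ∧
      L = P.map Prod.fst + P.map Prod.snd ∧ S = L + P.map (fun q => q.1 + q.2) := by
  have key : ∀ l : Fin t ⊕ Fin t → ℕ,
      (univ : Finset (Fin t × Fin 3)).val.map (vsum (pathI t) l) =
      (univ : Finset (Fin t ⊕ Fin t)).val.map l +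
        (univ : Finset (Fin t)).val.map (fun i => l (Sum.inl i) + l (Sum.inr i)) := by
    intro l
    rw [univ_map_prod3, univ_map_sum]
    congr 2
    · congr 1
      funext i
      simp [vsum, pathI, Fintype.sum_sum_type]
    · congr 1
      funext i
      simp [vsum, pathI, Fintype.sum_sum_type]
    · funext i
      simp [vsum, pathI, Fintype.sum_sum_type]
  constructor
  · rintro ⟨l, rfl, rfl⟩
    refine ⟨(univ : Finset (Fin t)).val.map (fun i => (l (Sum.inl i), l (Sum.inr i))), by simp,
      ?_, ?_⟩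
    · rw [univ_map_sum, Multiset.map_map, Multiset.map_map]
      rfl
    · rw [key, Multiset.map_map]
      rfl
  · rintro ⟨P, h, rfl, rfl⟩
    obtain ⟨p, rfl⟩ := exists_univ_map t P h
    have h2 : (univ : Finset (Fin t ⊕ Fin t)).val.map
        (Sum.elim (fun i => (p i).1) (fun i => (p i).2)) =
        ((univ : Finset (Fin t)).val.map p).map Prod.fst +
        ((univ : Finset (Fin t)).val.map p).map Prod.snd := by
      rw [univ_map_sum, Multiset.map_map, Multiset.map_map]
      rfl
    refine ⟨Sum.elim (fun i => (p i).1) (fun i => (p i).2), h2, ?_⟩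
    rw [key, h2, Multiset.map_map (fun q : ℕ × ℕ => q.1 + q.2)]
    rfl

lemma sum_lower (s : Multiset ℕ) (hs : s.Nodup) (b : ℕ) (hb : ∀ x ∈ s, b ≤ x) :
    2 * s.card * b + s.card * (s.card - 1) ≤ 2 * s.sum := by
  have h := Finset.sum_range_le_sum (s := (⟨s, hs⟩ : Finset ℕ).map Nat.castEmbedding) (c := (b : ℤ))
    (by
      intro x hx
      obtain ⟨y, hy, rfl⟩ := Finset.mem_map.1 hx
      rw [Nat.castEmbedding_apply]
      exact_mod_cast hb y hy)
  rw [Finset.card_map, Finset.sum_map, Finset.sum_add_distrib] at h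
  simp only [Finset.card_mk, Finset.sum_const, Finset.card_range, Nat.castEmbedding_apply] at h
  have h2 := Finset.sum_range_id_mul_two s.card
  have h3 : ∑ x ∈ (⟨s, hs⟩ : Finset ℕ), (x : ℤ) = ((s.sum : ℕ) : ℤ) := by
    rw [← Nat.cast_sum]
    simp [Finset.sum]
  rw [h3, ← Nat.cast_sum] at h
  have h4 : s.card * b + ∑ i ∈ range s.card, i ≤ s.sum := by
    simp only [nsmul_eq_mul] at h
    exact_mod_cast h
  nlinarith

end Pool.Agent.MP_567833_co
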