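import Pool.Agent.MP_567833_co.Lab

/-!
The counterexample: the star with 18 edges and the 4-cycle.
-/

set_option autoImplicit false

namespace Pool.Agent.MP_567833_co

open SimpleGraph Finset

/-- The star with 18 edges. -/
abbrev St : SimpleGraph (Fin 1 ⊕ Fin 18) := completeBipartiteGraph (Fin 1) (Fin 18)

lemma mem_Icc_val {M x : ℕ} : x ∈ (Finset.Icc 1 M).val ↔ 1 ≤ x ∧ x ≤ M := by
  rw [Finset.mem_val, Finset.mem_Icc]

lemma exists_isTau {V : Type} (G : SimpleGraph V) (l u : ℕ)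
    (h0 : ∀ t ≤ l, IsAntimagic (G ⊕g copiesP3 t)) (hu : ¬ IsAntimagic (G ⊕g copiesP3 u)) :
    ∃ a, l ≤ a ∧ a < u ∧ IsTau G a := by
  have hb : ∀ s ∈ {s : ℕ | ∀ t ≤ s, IsAntimagic (G ⊕g copiesP3 t)}, s < u := by
    intro s hs
    by_contra hc
    exact hu (hs u (by omega))
  have hbdd : BddAbove {s : ℕ | ∀ t ≤ s, IsAntimagic (G ⊕g copiesP3 t)} :=
    ⟨u, fun s hs => (hb s hs).le⟩
  have hne : {s : ℕ | ∀ t ≤ s, IsAntimagic (G ⊕g copiesP3 t)}.Nonempty := ⟨l, h0⟩
  have hm := Nat.sSup_mem hne hbdd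
  exact ⟨_, le_csSup hbdd h0, hb _ hm, hm, fun s hs => le_csSup hbdd hs⟩

lemma sum_map_add (P : Multiset (ℕ × ℕ)) :
    (P.map (fun q => q.1 + q.2)).sum = (P.map Prod.fst + P.map Prod.snd).sum := by
  rw [Multiset.sum_add, Multiset.sum_map_add]

lemma one_le_sums {P : Multiset (ℕ × ℕ)} (h : ∀ x ∈ P.map Prod.fst + P.map Prod.snd, 1 ≤ x) :
    ∀ x ∈ P.map (fun q => q.1 + q.2), 1 ≤ x := by
  intro x hx
  obtain ⟨q, hq, rfl⟩ := Multiset.mem_map.1 hx
  have := h q.1 (Multiset.mem_add.2 (Or.inl (Multiset.mem_map_of_mem _ hq)))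
  omega

theorem star_not : ¬ IsAntimagic (St ⊕g copiesP3 38) := by
  rw [antimagic_iff ((param_star 18).sum (param_path 38))]
  rintro ⟨S, hL, hS⟩
  obtain ⟨L₁, L₂, S₁, S₂, h₁, h₂, hL', rfl⟩ := (lab_sum _ _ _ _).1 hL
  obtain ⟨hc, rfl⟩ := (lab_star _ _ _).1 h₁
  obtain ⟨P, hP, hL₂, rfl⟩ := (lab_path _ _ _).1 h₂
  simp only [Fintype.card_sum, Fintype.card_fin] at hL'
  have hmem : ∀ x, x ∈ L₁ + L₂ ↔ 1 ≤ x ∧ x ≤ 94 := fun x => by rw [← hL', mem_Icc_val]
  have hsum : L₁.sum + L₂.sum = 4465 := by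
    rw [← Multiset.sum_add, ← hL']
    decide +kernel
  have hnd : (L₁ + L₂).Nodup := by rw [← hL']; exact (Finset.Icc _ _).nodup
  have h1 := sum_lower L₁ (Multiset.nodup_add.1 hnd).1 1
    (fun x hx => ((hmem x).1 (Multiset.mem_add.2 (Or.inl hx))).1)
  rw [Multiset.cons_add, Multiset.nodup_cons, ← add_assoc, Multiset.nodup_add] at hS
  obtain ⟨-, -, hC, hdis⟩ := hS
  have h2 := sum_lower _ hC 95 (fun x hx => by
    have h3 := one_le_sums (P := P)
      (fun y hy => ((hmem y).1 (Multiset.mem_add.2 (Or.inr (hL₂ ▸ hy)))).1) x hx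
    have h4 : x ∉ L₁ + L₂ := fun h => Multiset.disjoint_left.1 hdis h hx
    rw [hmem] at h4
    omega)
  rw [sum_map_add, ← hL₂, Multiset.card_map, hP] at h2
  rw [hc] at h1
  omega

theorem cyc_not : ¬ IsAntimagic (cycleGraph 4 ⊕g copiesP3 11) := by
  rw [antimagic_iff (param_cyc.sum (param_path 11))]
  rintro ⟨S, hL, hS⟩
  obtain ⟨L₁, L₂, S₁, S₂, h₁, h₂, hL', rfl⟩ := (lab_sum _ _ _ _).1 hL
  obtain ⟨a, b, c, d, rfl, rfl⟩ := (lab_cyc _ _).1 h₁
  obtain ⟨P, hP, hL₂, rfl⟩ := (lab_path _ _ _).1 h₂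
  simp only [Fintype.card_sum, Fintype.card_fin] at hL'
  have hmem : ∀ x, x ∈ ({a, b, c, d} : Multiset ℕ) + L₂ ↔ 1 ≤ x ∧ x ≤ 26 :=
    fun x => by rw [← hL', mem_Icc_val]
  have hsum : ({a, b, c, d} : Multiset ℕ).sum + L₂.sum = 351 := by
    rw [← Multiset.sum_add, ← hL']
    decide +kernel
  have ha := ((hmem a).1 (by simp)).1
  have hb := ((hmem b).1 (by simp)).1
  have hc := ((hmem c).1 (by simp)).1
  have hL2 : ∀ y ∈ L₂, 1 ≤ y := fun y hy => ((hmem y).1 (Multiset.mem_add.2 (Or.inr hy))).1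
  have h2 := sum_lower _ hS 1 (fun x hx => by
    rcases Multiset.mem_add.1 hx with hx | hx
    · simp at hx
      omega
    · rcases Multiset.mem_add.1 hx with hx | hx
      · exact hL2 x hx
      · exact one_le_sums (P := P) (fun y hy => hL2 y (hL₂ ▸ hy)) x hx)
  have hc2 : L₂.card = 22 := by rw [hL₂]; simp [hP]
  rw [Multiset.sum_add, Multiset.sum_add, sum_map_add, ← hL₂, Multiset.card_add, Multiset.card_add,
    Multiset.card_map, hP, hc2] at h2
  simp at h2 hsum
  omega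

theorem union_not : ¬ IsAntimagic ((St ⊕g cycleGraph 4) ⊕g copiesP3 49) := by
  rw [antimagic_iff (((param_star 18).sum param_cyc).sum (param_path 49))]
  rintro ⟨S, hL, hS⟩
  obtain ⟨L₀, L₂, S₀, S₂, h₀, h₂, hL', rfl⟩ := (lab_sum _ _ _ _).1 hL
  obtain ⟨L₁, L₃, S₁, S₃, h₁, h₃, rfl, rfl⟩ := (lab_sum _ _ _ _).1 h₀
  obtain ⟨hc1, rfl⟩ := (lab_star _ _ _).1 h₁
  obtain ⟨a, b, c, d, rfl, rfl⟩ := (lab_cyc _ _).1 h₃
  obtain ⟨P, hP, hL₂, rfl⟩ := (lab_path _ _ _).1 h₂
  simp only [Fintype.card_sum, Fintype.card_fin] at hL'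
  have hmem : ∀ x, x ∈ L₁ + ({a, b, c, d} : Multiset ℕ) + L₂ ↔ 1 ≤ x ∧ x ≤ 120 :=
    fun x => by rw [← hL', mem_Icc_val]
  have hsum : L₁.sum + ({a, b, c, d} : Multiset ℕ).sum + L₂.sum = 7260 := by
    rw [← Multiset.sum_add, ← Multiset.sum_add, ← hL']
    decide +kernel
  have hnd : (L₁ + ({a, b, c, d} : Multiset ℕ) + L₂).Nodup := by
    rw [← hL']; exact (Finset.Icc _ _).nodup
  have hL1 : ∀ y ∈ L₁, 1 ≤ y := fun y hy => ((hmem y).1 (by simp [hy])).1
  have h1 := sum_lower L₁ (Multiset.nodup_add.1 (Multiset.nodup_add.1 hnd).1).1 1 hL1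
  have ha := ((hmem a).1 (by simp)).1
  have hb := ((hmem b).1 (by simp)).1
  have hc := ((hmem c).1 (by simp)).1
  have hL2 : ∀ y ∈ L₂, 1 ≤ y := fun y hy => ((hmem y).1 (Multiset.mem_add.2 (Or.inr hy))).1
  rw [Multiset.cons_add, Multiset.cons_add, Multiset.nodup_cons] at hS
  have h2 := sum_lower _ hS.2 1 (fun x hx => by
    rcases Multiset.mem_add.1 hx with hx | hx
    · rcases Multiset.mem_add.1 hx with hx | hx
      · exact hL1 x hx
      · simp at hx
        omega
    · rcases Multiset.mem_add.1 hx with hx | hx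
      · exact hL2 x hx
      · exact one_le_sums (P := P) (fun y hy => hL2 y (hL₂ ▸ hy)) x hx)
  have hc2 : L₂.card = 98 := by rw [hL₂]; simp [hP]
  rw [Multiset.sum_add, Multiset.sum_add, Multiset.sum_add, sum_map_add, ← hL₂, Multiset.card_add,
    Multiset.card_add, Multiset.card_add, Multiset.card_map, hP, hc2, hc1] at h2
  rw [hc1] at h1
  simp at h2 hsum
  omega

lemma lab_star18 : Lab (starI 18) (List.range' 1 18 : List ℕ) (171 :: List.range' 1 18 : List ℕ) :=
  (lab_star _ _ _).2 ⟨by decide, by decide⟩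

lemma lab_cyc4 (a b c d : ℕ) :
    Lab cycI ([a, b, c, d] : List ℕ) ([a + d, a + b, b + c, c + d] : List ℕ) :=
  (lab_cyc _ _).2 ⟨a, b, c, d, rfl, rfl⟩

lemma lab_paths (p : List (ℕ × ℕ)) :
    Lab (pathI p.length) (p.map Prod.fst ++ p.map Prod.snd : List ℕ)
      (p.map Prod.fst ++ p.map Prod.snd ++ p.map (fun q => q.1 + q.2) : List ℕ) :=
  (lab_path _ _ _).2 ⟨p, rfl, rfl, rfl⟩

theorem star_yes : IsAntimagic St := by
  rw [antimagic_iff (param_star 18)]
  refine ⟨_, ?_, (by decide : ((171 :: List.range' 1 18 : List ℕ) : Multiset ℕ).Nodup)⟩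
  exact lab_star18

theorem cyc_yes : IsAntimagic (cycleGraph 4) := by
  rw [antimagic_iff param_cyc]
  refine ⟨_, ?_, (by decide : (([1 + 3, 1 + 2, 2 + 4, 4 + 3] : List ℕ) : Multiset ℕ).Nodup)⟩
  have h : (Finset.Icc 1 (Fintype.card (Fin 4))).val = (([1, 2, 4, 3] : List ℕ) : Multiset ℕ) := by
    decide
  rw [h]
  exact lab_cyc4 1 2 4 3

theorem star_zero : IsAntimagic (St ⊕g copiesP3 0) := by
  rw [antimagic_iff ((param_star 18).sum (param_path 0))]
  refine ⟨_, (lab_sum _ _ _ _).2 ⟨_, _, _, _, lab_star18, lab_paths [], by decide, rfl⟩, by decide⟩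

theorem cyc_zero : IsAntimagic (cycleGraph 4 ⊕g copiesP3 0) := by
  rw [antimagic_iff (param_cyc.sum (param_path 0))]
  refine ⟨_, (lab_sum _ _ _ _).2 ⟨_, _, _, _, lab_cyc4 1 2 4 3, lab_paths [], by decide, rfl⟩,
    by decide⟩

/-- The check of one labelling. -/
def ok (x : (ℕ × ℕ × ℕ × ℕ) × List (ℕ × ℕ)) : Prop :=
  (List.range' 1 (22 + 2 * x.2.length)).Perm
    (List.range' 1 18 ++ [x.1.1, x.1.2.1, x.1.2.2.1, x.1.2.2.2] ++
      (x.2.map Prod.fst ++ x.2.map Prod.snd)) ∧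
  ((171 :: List.range' 1 18) ++
    [x.1.1 + x.1.2.2.2, x.1.1 + x.1.2.1, x.1.2.1 + x.1.2.2.1, x.1.2.2.1 + x.1.2.2.2] ++
    (x.2.map Prod.fst ++ x.2.map Prod.snd ++ x.2.map (fun q => q.1 + q.2))).Nodup

instance (x : (ℕ × ℕ × ℕ × ℕ) × List (ℕ × ℕ)) : Decidable (ok x) := by
  unfold ok
  infer_instance

lemma union_of_ok (x : (ℕ × ℕ × ℕ × ℕ) × List (ℕ × ℕ)) (h : ok x) :
    IsAntimagic ((St ⊕g cycleGraph 4) ⊕g copiesP3 x.2.length) := by
  obtain ⟨⟨a, b, c, d⟩, p⟩ := x
  obtain ⟨h1, h2⟩ := h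
  rw [antimagic_iff (((param_star 18).sum param_cyc).sum (param_path _))]
  refine ⟨_, (lab_sum _ _ _ _).2 ⟨_, _, _, _,
    (lab_sum _ _ _ _).2 ⟨_, _, _, _, lab_star18, lab_cyc4 a b c d, rfl, rfl⟩,
    lab_paths p, ?_, rfl⟩, ?_⟩
  · simp only [Fintype.card_sum, Fintype.card_fin, Multiset.coe_add]
    rw [Nat.Icc_eq_range']
    simp only
    rw [Multiset.coe_eq_coe, show 18 + 4 + (p.length + p.length) + 1 - 1 = 22 + 2 * p.length by
      omega]
    exact h1
  · simp only [Multiset.coe_add, Multiset.coe_nodup]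
    exact h2

/-- Labellings of the cycle and of the paths, the star carrying the labels `1, ..., 18`. -/
def cert : List ((ℕ × ℕ × ℕ × ℕ) × List (ℕ × ℕ)) := [
  ((21, 22, 20, 19), []),
  ((21, 23, 24, 19), [(20, 22)]),
  ((25, 26, 23, 21), [(20, 22), (19, 24)]),
  ((25, 28, 23, 27), [(20, 22), (19, 24), (21, 26)]),
  ((30, 28, 23, 27), [(20, 22), (21, 26), (19, 24), (29, 25)]),
  ((30, 21, 23, 27), [(20, 22), (31, 24), (19, 26), (29, 25), (32, 28)]),
  ((24, 34, 23, 27), [(20, 22), (31, 30), (19, 26), (29, 25), (21, 28), (32, 33)]),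
  ((29, 34, 23, 27), [(20, 22), (31, 35), (19, 24), (30, 25), (36, 28), (32, 33), (26, 21)]),
  ((30, 38, 23, 27), [(20, 22), (31, 24), (19, 35), (29, 37), (25, 28), (32, 33), (26, 21), (36, 34)]),
  ((30, 39, 23, 27), [(20, 22), (31, 24), (19, 35), (28, 25), (37, 29), (32, 33), (26, 21), (36, 40), (38, 34)]),
  ((42, 39, 23, 27), [(20, 22), (31, 24), (19, 35), (28, 25), (41, 29), (32, 33), (26, 21), (36, 30), (38, 34), (37, 40)]),
  ((30, 22, 23, 27), [(20, 39), (31, 24), (19, 35), (29, 41), (25, 28), (32, 33), (26, 21), (36, 44), (38, 34), (37, 40), (42, 43)]),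
  ((30, 39, 23, 27), [(20, 28), (31, 24), (19, 42), (29, 25), (41, 45), (32, 33), (26, 21), (36, 44), (38, 34), (37, 40), (35, 43), (22, 46)]),
  ((30, 39, 23, 27), [(48, 26), (31, 24), (21, 35), (29, 25), (47, 28), (32, 33), (45, 19), (36, 44), (38, 34), (37, 40), (42, 43), (22, 46), (41, 20)]),
  ((50, 39, 23, 27), [(48, 45), (31, 49), (19, 36), (29, 25), (47, 28), (32, 33), (26, 34), (35, 44), (38, 21), (37, 30), (42, 43), (22, 46), (41, 20), (24, 40)]),
  ((42, 39, 28, 47), [(48, 45), (31, 27), (19, 51), (29, 25), (49, 23), (32, 33), (26, 21), (36, 44), (38, 52), (37, 50), (30, 43), (22, 46), (41, 20), (24, 40), (35, 34)]),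
  ((47, 39, 23, 36), [(54, 45), (31, 49), (19, 51), (29, 43), (30, 28), (32, 33), (26, 21), (27, 44), (38, 52), (37, 50), (42, 25), (22, 46), (53, 20), (24, 40), (35, 34), (41, 48)]),
  ((30, 54, 36, 27), [(48, 45), (31, 49), (19, 51), (29, 25), (47, 28), (32, 33), (26, 55), (23, 44), (38, 56), (37, 50), (42, 43), (22, 46), (53, 39), (24, 40), (35, 34), (41, 20), (21, 52)]),
  ((49, 39, 23, 56), [(54, 45), (31, 30), (19, 51), (57, 25), (47, 28), (32, 33), (26, 55), (36, 44), (38, 58), (37, 50), (42, 43), (22, 46), (40, 20), (24, 53), (35, 34), (41, 48), (21, 52), (29, 27)]),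
  ((49, 39, 23, 60), [(54, 45), (31, 30), (19, 51), (57, 59), (47, 28), (32, 33), (26, 55), (36, 44), (38, 58), (37, 50), (20, 43), (22, 46), (53, 42), (27, 40), (35, 34), (41, 48), (21, 52), (29, 56), (25, 24)]),
  ((30, 39, 28, 44), [(54, 45), (31, 49), (19, 52), (57, 59), (56, 23), (32, 33), (26, 55), (36, 27), (38, 58), (37, 50), (42, 43), (22, 46), (53, 25), (60, 40), (61, 34), (41, 48), (21, 62), (29, 47), (20, 24), (35, 51)]),
  ((30, 39, 31, 36), [(54, 45), (23, 49), (19, 20), (57, 59), (47, 28), (32, 33), (26, 55), (27, 44), (63, 58), (42, 50), (37, 43), (22, 46), (24, 64), (60, 40), (61, 34), (41, 48), (21, 52), (29, 56), (25, 62), (35, 51), (38, 53)]),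
  ((50, 47, 23, 27), [(54, 45), (31, 49), (19, 62), (57, 59), (39, 28), (65, 33), (22, 25), (30, 44), (63, 58), (37, 66), (42, 43), (26, 46), (64, 20), (60, 36), (61, 34), (41, 48), (21, 52), (32, 56), (55, 24), (35, 51), (38, 53), (29, 40)]),
  ((49, 39, 68, 62), [(54, 45), (31, 63), (43, 27), (57, 59), (47, 28), (65, 67), (26, 55), (66, 44), (19, 58), (37, 50), (42, 30), (22, 46), (64, 20), (60, 40), (61, 34), (41, 48), (21, 52), (23, 56), (25, 24), (35, 36), (38, 53), (32, 51), (33, 29)]),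
  ((32, 39, 70, 47), [(54, 69), (31, 49), (19, 62), (57, 33), (65, 28), (27, 67), (26, 46), (66, 44), (63, 58), (37, 50), (42, 43), (22, 55), (64, 20), (60, 40), (61, 34), (41, 48), (21, 52), (36, 56), (23, 24), (35, 51), (38, 53), (30, 68), (59, 29), (45, 25)]),
  ((66, 39, 49, 27), [(54, 25), (51, 23), (19, 63), (57, 59), (47, 28), (65, 32), (26, 72), (22, 44), (62, 58), (30, 50), (42, 43), (37, 46), (64, 20), (60, 40), (61, 34), (41, 48), (29, 52), (68, 56), (70, 24), (35, 71), (38, 53), (67, 36), (69, 21), (45, 33), (31, 55)]),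
  ((65, 39, 40, 73), [(54, 36), (71, 25), (19, 62), (57, 59), (47, 28), (30, 67), (26, 72), (66, 44), (63, 46), (37, 50), (42, 43), (22, 70), (64, 20), (60, 23), (61, 34), (41, 48), (21, 52), (68, 56), (58, 24), (35, 51), (74, 53), (32, 69), (33, 55), (45, 31), (49, 29), (27, 38)]),
  ((73, 39, 62, 30), [(54, 23), (71, 49), (19, 59), (57, 69), (51, 28), (22, 67), (26, 72), (66, 44), (38, 58), (37, 50), (42, 43), (65, 46), (64, 20), (60, 40), (61, 34), (76, 48), (21, 52), (68, 25), (70, 24), (35, 47), (74, 53), (45, 36), (33, 29), (32, 75), (31, 55), (27, 63), (56, 41)]),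
  ((30, 68, 23, 73), [(54, 28), (71, 49), (19, 62), (57, 45), (47, 78), (77, 27), (59, 20), (66, 44), (35, 58), (37, 50), (42, 43), (22, 67), (64, 26), (60, 40), (61, 34), (76, 25), (21, 52), (48, 75), (56, 24), (63, 51), (74, 53), (32, 36), (33, 72), (29, 65), (31, 55), (46, 38), (70, 41), (39, 69)]),
  ((73, 39, 60, 23), [(54, 69), (71, 49), (40, 48), (57, 59), (31, 78), (68, 32), (26, 72), (66, 44), (63, 70), (37, 50), (42, 43), (45, 46), (64, 20), (62, 19), (61, 34), (76, 30), (21, 52), (77, 75), (80, 24), (35, 51), (36, 53), (33, 74), (79, 29), (27, 55), (67, 25), (22, 38), (56, 41), (65, 28), (58, 47)]),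
  ((30, 74, 46, 73), [(54, 69), (71, 75), (19, 27), (57, 59), (80, 78), (65, 23), (26, 72), (66, 44), (63, 58), (37, 50), (47, 43), (22, 67), (64, 20), (45, 40), (61, 34), (76, 35), (21, 52), (77, 49), (70, 24), (48, 51), (39, 53), (82, 36), (79, 29), (60, 33), (31, 55), (62, 38), (56, 41), (68, 28), (25, 81), (42, 32)]),
  ((30, 76, 65, 73), [(20, 77), (71, 49), (64, 32), (57, 28), (51, 78), (23, 67), (26, 72), (66, 44), (63, 56), (37, 50), (81, 43), (82, 19), (25, 84), (60, 40), (42, 34), (83, 22), (21, 52), (74, 58), (70, 24), (35, 69), (80, 53), (48, 41), (79, 29), (45, 46), (31, 55), (27, 38), (75, 36), (33, 59), (68, 47), (61, 62), (39, 54)]),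
  ((30, 83, 65, 73), [(32, 69), (71, 49), (29, 62), (57, 59), (19, 78), (23, 67), (26, 72), (66, 44), (63, 58), (37, 50), (45, 43), (85, 41), (35, 80), (60, 40), (61, 34), (77, 48), (21, 52), (39, 75), (81, 24), (55, 51), (74, 53), (86, 36), (79, 54), (84, 25), (28, 64), (27, 38), (47, 46), (68, 31), (33, 56), (42, 70), (76, 20), (22, 82)]),
  ((86, 55, 74, 73), [(50, 76), (71, 49), (19, 88), (57, 59), (46, 87), (65, 67), (26, 72), (66, 44), (30, 25), (37, 54), (62, 43), (85, 27), (39, 84), (60, 40), (61, 34), (83, 23), (21, 52), (77, 75), (70, 24), (35, 51), (48, 53), (63, 36), (79, 29), (45, 58), (31, 78), (80, 38), (56, 41), (68, 28), (64, 47), (42, 32), (69, 20), (22, 82), (33, 81)]),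
  ((61, 78, 72, 73), [(54, 41), (71, 49), (19, 88), (57, 65), (46, 87), (45, 67), (26, 82), (66, 44), (63, 58), (69, 50), (81, 43), (85, 20), (35, 79), (60, 40), (38, 34), (83, 48), (21, 52), (77, 75), (29, 86), (89, 51), (74, 53), (42, 36), (84, 25), (22, 70), (47, 55), (27, 90), (56, 37), (68, 28), (30, 31), (62, 32), (76, 23), (39, 59), (64, 33), (24, 80)]),
  ((50, 87, 70, 73), [(54, 90), (24, 49), (84, 52), (57, 59), (66, 69), (38, 58), (26, 77), (32, 78), (64, 35), (72, 48), (81, 43), (67, 63), (47, 85), (60, 40), (61, 34), (83, 30), (21, 88), (37, 75), (39, 89), (71, 23), (74, 53), (86, 36), (79, 29), (45, 25), (92, 33), (28, 65), (56, 41), (68, 51), (55, 46), (42, 76), (91, 20), (22, 82), (44, 62), (19, 31), (27, 80)]),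
  ((70, 80, 23, 73), [(54, 65), (71, 49), (19, 88), (57, 59), (39, 87), (69, 67), (26, 72), (66, 44), (63, 58), (37, 68), (81, 43), (85, 30), (28, 84), (60, 40), (61, 34), (83, 48), (21, 52), (77, 75), (93, 24), (79, 51), (74, 32), (86, 36), (89, 29), (45, 25), (31, 94), (27, 53), (56, 41), (50, 78), (55, 47), (42, 92), (91, 20), (22, 82), (64, 35), (62, 46), (76, 38), (90, 33)]),
  ((64, 96, 95, 62), [(27, 89), (71, 57), (19, 84), (49, 59), (80, 21), (76, 67), (26, 73), (66, 85), (88, 58), (37, 65), (81, 43), (72, 38), (86, 33), (60, 40), (61, 34), (83, 48), (55, 52), (50, 75), (63, 46), (79, 51), (74, 53), (44, 54), (78, 42), (45, 70), (31, 87), (77, 35), (56, 41), (68, 28), (94, 47), (29, 92), (91, 20), (22, 82), (69, 36), (93, 24), (30, 32), (39, 25), (23, 90)]),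
  ((78, 70, 95, 73), [(31, 69), (71, 49), (19, 88), (57, 59), (46, 87), (65, 67), (26, 98), (66, 44), (63, 36), (83, 40), (92, 43), (85, 93), (64, 37), (72, 50), (61, 34), (58, 48), (21, 52), (28, 75), (81, 24), (27, 51), (74, 53), (39, 86), (79, 38), (45, 25), (54, 55), (97, 29), (56, 62), (68, 77), (94, 47), (84, 30), (91, 20), (22, 82), (89, 41), (35, 80), (76, 32), (96, 33), (23, 90), (42, 60)]),
  ((97, 39, 95, 73), [(54, 69), (83, 24), (42, 88), (57, 59), (25, 87), (65, 67), (26, 79), (66, 44), (63, 58), (93, 50), (81, 43), (85, 30), (64, 38), (98, 40), (61, 34), (71, 48), (21, 52), (77, 75), (94, 51), (89, 60), (74, 53), (86, 36), (72, 29), (45, 80), (31, 78), (27, 84), (56, 41), (100, 28), (92, 47), (19, 20), (91, 35), (22, 82), (55, 62), (49, 99), (76, 32), (33, 70), (23, 90), (37, 96), (46, 68)]),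
  ((57, 95, 66, 73), [(101, 31), (97, 49), (19, 88), (37, 86), (64, 87), (39, 67), (30, 99), (100, 41), (78, 55), (61, 50), (69, 52), (75, 40), (71, 65), (68, 72), (26, 98), (83, 27), (90, 24), (63, 32), (42, 74), (94, 51), (44, 59), (89, 53), (79, 29), (91, 28), (85, 43), (48, 96), (56, 62), (20, 46), (35, 38), (21, 92), (60, 77), (22, 82), (54, 93), (84, 25), (76, 36), (45, 81), (34, 23), (70, 80), (33, 102), (58, 47)]),
  ((51, 97, 94, 73), [(54, 69), (71, 49), (19, 88), (77, 53), (25, 87), (42, 67), (50, 23), (102, 38), (93, 40), (35, 86), (95, 43), (33, 80), (26, 91), (70, 81), (27, 24), (83, 32), (21, 85), (61, 75), (64, 79), (104, 31), (103, 22), (74, 34), (66, 56), (89, 57), (39, 55), (72, 44), (65, 92), (100, 28), (98, 20), (48, 62), (59, 96), (29, 82), (78, 41), (30, 99), (76, 63), (84, 60), (45, 52), (37, 90), (46, 68), (58, 47), (36, 101)]),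
  ((76, 71, 95, 73), [(54, 69), (97, 49), (19, 88), (57, 68), (30, 87), (51, 67), (82, 72), (66, 44), (105, 45), (26, 50), (81, 35), (85, 24), (48, 84), (98, 21), (61, 34), (83, 37), (101, 52), (77, 75), (33, 93), (89, 41), (103, 53), (86, 36), (79, 29), (90, 25), (31, 40), (22, 92), (56, 65), (100, 28), (38, 106), (42, 94), (91, 20), (104, 23), (78, 62), (43, 99), (80, 32), (74, 63), (58, 55), (64, 60), (27, 46), (96, 47), (59, 70), (39, 102)]),
  ((95, 52, 97, 73), [(55, 69), (71, 49), (108, 38), (57, 59), (31, 87), (65, 67), (26, 99), (66, 44), (22, 51), (96, 47), (53, 78), (103, 30), (64, 84), (98, 39), (61, 34), (90, 25), (85, 60), (81, 77), (29, 107), (89, 32), (93, 35), (86, 43), (42, 70), (45, 72), (80, 75), (27, 82), (101, 41), (40, 83), (24, 106), (21, 92), (23, 74), (100, 54), (88, 62), (58, 104), (36, 105), (19, 33), (94, 28), (76, 50), (46, 68), (79, 48), (56, 63), (37, 102), (91, 20)]),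
  ((65, 93, 61, 87), [(72, 77), (24, 69), (19, 97), (57, 63), (86, 25), (40, 98), (53, 92), (42, 73), (66, 60), (20, 105), (34, 85), (26, 88), (48, 64), (68, 106), (41, 46), (84, 33), (59, 96), (54, 81), (31, 103), (89, 51), (82, 80), (70, 67), (90, 52), (55, 58), (43, 78), (27, 38), (22, 110), (91, 39), (37, 107), (47, 99), (71, 108), (109, 30), (83, 50), (104, 23), (45, 102), (29, 32), (21, 101), (56, 62), (100, 28), (44, 79), (74, 76), (95, 36), (49, 75), (94, 35)]),
  ((95, 64, 88, 70), [(97, 69), (91, 25), (104, 35), (60, 93), (63, 78), (94, 23), (68, 79), (99, 73), (108, 34), (44, 100), (76, 56), (75, 46), (50, 110), (65, 59), (28, 112), (58, 90), (98, 48), (62, 33), (43, 21), (61, 74), (42, 87), (29, 41), (72, 47), (40, 82), (81, 45), (83, 55), (77, 51), (89, 26), (22, 101), (84, 30), (106, 19), (105, 31), (53, 67), (20, 111), (57, 80), (102, 32), (24, 103), (109, 54), (71, 85), (39, 49), (36, 107), (27, 86), (96, 37), (52, 66), (38,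 92)]),
  ((92, 65, 98, 49), [(78, 45), (109, 34), (39, 89), (96, 23), (87, 63), (69, 80), (76, 90), (30, 105), (24, 101), (41, 110), (81, 74), (107, 26), (29, 103), (22, 108), (83, 38), (70, 54), (46, 19), (88, 32), (73, 94), (20, 114), (33, 82), (47, 71), (51, 93), (57, 35), (113, 25), (86, 68), (97, 55), (95, 66), (59, 72), (37, 85), (112, 53), (61, 75), (58, 79), (56, 60), (102, 44), (43, 84), (64, 104), (52, 77), (91, 48), (67, 50), (40, 100), (27, 99), (21, 28), (111, 31), (36, 62), (106, 42)]),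
  ((114, 48, 85, 54), [(113, 43), (91, 69), (96, 61), (79, 59), (109, 45), (66, 71), (53, 102), (103, 23), (101, 22), (94, 25), (32, 115), (88, 36), (99, 33), (111, 24), (93, 49), (98, 47), (57, 112), (50, 35), (68, 46), (65, 55), (37, 84), (110, 39), (116, 27), (107, 34), (82, 52), (64, 67), (75, 83), (104, 62), (63, 77), (78, 44), (87, 31), (73, 86), (105, 41), (51, 74), (76, 72), (80, 56), (42, 108), (95, 58), (100, 30), (97, 20), (29, 19), (90, 38), (60, 92), (106, 21), (40, 89), (26, 28), (81, 70)]),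
  ((81, 82, 75, 45), [(65, 87), (42, 96), (98, 66), (48, 103), (36, 83), (114, 20), (31, 44), (80, 79), (77, 46), (26, 56), (28, 113), (86, 39), (33, 89), (41, 115), (49, 104), (32, 118), (76, 53), (73, 99), (91, 70), (90, 37), (95, 54), (110, 29), (50, 74), (93, 51), (109, 21), (112, 35), (30, 107), (117, 52), (111, 25), (38, 108), (88, 67), (71, 64), (72, 59), (97, 61), (94, 60), (34, 106), (92, 68), (22, 23), (27, 116), (19, 102), (84, 58), (47, 101), (24, 57), (69, 63), (55, 78), (85, 43), (100, 62), (105, 40)])]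

lemma cert_ok : ∀ x ∈ cert, ok x := by decide +kernel

lemma cert_len : cert.map (fun x => x.2.length) = List.range 49 := by decide +kernel

theorem union_yes (t : ℕ) (ht : t ≤ 48) : IsAntimagic ((St ⊕g cycleGraph 4) ⊕g copiesP3 t) := by
  have h : t ∈ cert.map (fun x => x.2.length) := by
    rw [cert_len, List.mem_range]
    omega
  obtain ⟨x, hx, rfl⟩ := List.mem_map.1 h
  exact union_of_ok x (cert_ok x hx)

end Pool.Agent.MP_567833_co
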